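import Pool.Agent.Lib.MP_fe72db_an.Surf.Final

open Pool.Agent.Lib.MP_fe72db_an.Surf
open scoped Manifold ContDiff

/-- On every compact surface `M` (modelled on a two dimensional real normed space `V`, for instance
the Euclidean plane) there is no subset `U` of `O`, open and dense in `O` for the `C^1` topology,
all of whose elements have trivial `C^1` centralizer. -/
theorem Pool.Agent.Results.MP_fe72db_an.AllSurfaces.result (V M : Type) [NormedAddCommGroup V]
    [NormedSpace ℝ V] (hV : Module.finrank ℝ V = 2) [TopologicalSpace M] [ChartedSpace V M]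
    [IsManifold 𝓘(ℝ, V) ∞ M] [T2Space M] [CompactSpace M] [Nonempty M] (g : RMetric V M) :
    ¬ ∃ U : Set (O g), IsOpen U ∧ Dense U ∧ ∀ f ∈ U, TrivialCentralizer f.1 :=
  have := Module.finite_of_finrank_eq_succ hV
  main hV g
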